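import Pool.Agent.Lib.MP_5c318e_ag.M.Kron

/-! Exponential of nilpotent and logarithm of unipotent elements, with explicit formulas. -/

set_option autoImplicit false

namespace Pool.Agent.Lib.MP_5c318e_ag.M

open Finset Polynomial
open scoped Nat ComplexConjugate

noncomputable section

section Alg

variable {A : Type*} [Ring A] [Algebra ℂ A]

/-- `exp (w N)` for `N ^ r = 0` -/
def nexp (r : ℕ) (N : A) (w : ℂ) : A := ∑ i ∈ range r, (w ^ i / (i ! : ℂ)) • N ^ i

/-- `log U` for `(U - 1) ^ r = 0` -/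
def nlog (r : ℕ) (U : A) : A := ∑ i ∈ range r, ((-1) ^ (i + 1) / (i : ℂ)) • (U - 1) ^ i

variable {r : ℕ} {N U : A}

theorem nexp_smul (r : ℕ) (c : ℂ) (N : A) (w : ℂ) : nexp r (c • N) w = nexp r N (c * w) := by
  refine sum_congr rfl fun i _ => ?_
  rw [_root_.smul_pow, smul_smul, mul_pow]
  congr 1
  ring

theorem nexp_neg (r : ℕ) (N : A) (w : ℂ) : nexp r (-N) w = nexp r N (-w) := by
  rw [← neg_one_smul ℂ N, nexp_smul, neg_one_mul]

theorem nexp_add_comm {N' : A} (hN : N ^ r = 0) (hN' : N' ^ r = 0) (hs : (N + N') ^ r = 0)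
    (hc : Commute N N') (w : ℂ) : nexp r (N + N') w = nexp r N w * nexp r N' w := by
  let _ : Module ℚ A := Module.compHom A (algebraMap ℚ ℂ)
  have key : ∀ a : A, a ^ r = 0 → nexp r a w = IsNilpotent.exp (w • a) := by
    intro a ha
    rw [IsNilpotent.exp_eq_sum (k := r) (by rw [_root_.smul_pow, ha, smul_zero])]
    refine sum_congr rfl fun i _ => ?_
    show _ = (algebraMap ℚ ℂ (i ! : ℚ)⁻¹) • (w • a) ^ i
    rw [_root_.smul_pow, smul_smul]
    congr 1
    simp [div_eq_inv_mul]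
  rw [key _ hN, key _ hN', key _ hs, smul_add]
  exact IsNilpotent.exp_add_of_commute ((hc.smul_left w).smul_right w)
    ⟨r, by rw [_root_.smul_pow, hN, smul_zero]⟩ ⟨r, by rw [_root_.smul_pow, hN', smul_zero]⟩

theorem nexp_add (hN : N ^ r = 0) (w w' : ℂ) : nexp r N (w + w') = nexp r N w * nexp r N w' := by
  have h : ∀ c : ℂ, (c • N) ^ r = 0 := fun c => by rw [_root_.smul_pow, hN, smul_zero]
  have := nexp_add_comm (h w) (h w') (by rw [← add_smul]; exact h _)
    (((Commute.refl N).smul_left w).smul_right w') 1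
  simpa only [← add_smul, nexp_smul, mul_one] using this

theorem nexp_zero (hN : N ^ r = 0) : nexp r N 0 = 1 := by
  rcases r with _ | r
  · rw [pow_zero] at hN
    rw [hN]
    rfl
  · simp [nexp, sum_range_succ']

theorem nexp_zero_left (hr : 0 < r) (w : ℂ) : nexp r (0 : A) w = 1 := by
  rw [← zero_smul ℂ (0 : A), nexp_smul, zero_mul, nexp_zero (zero_pow hr.ne')]

theorem nexp_mul_neg (hN : N ^ r = 0) (w : ℂ) : nexp r N w * nexp r N (-w) = 1 := by
  rw [← nexp_add hN, add_neg_cancel, nexp_zero hN]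

theorem nexp_neg_mul (hN : N ^ r = 0) (w : ℂ) : nexp r N (-w) * nexp r N w = 1 := by
  rw [← nexp_add hN, neg_add_cancel, nexp_zero hN]

theorem isUnit_nexp (hN : N ^ r = 0) (w : ℂ) : IsUnit (nexp r N w) :=
  ⟨⟨_, _, nexp_mul_neg hN w, nexp_neg_mul hN w⟩, rfl⟩

theorem nexp_nat_mul (hN : N ^ r = 0) (e : ℕ) (w : ℂ) : nexp r N (e * w) = nexp r N w ^ e := by
  induction e with
  | zero => simp [nexp_zero hN]
  | succ e ih => rw [pow_succ, ← ih, ← nexp_add hN]; congr 1; push_cast; ring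

theorem nexp_of_le (hN : N ^ r = 0) {s : ℕ} (h : r ≤ s) (w : ℂ) : nexp s N w = nexp r N w := by
  refine (sum_subset (range_mono h) fun i _ hi => ?_).symm
  rw [pow_eq_zero_of_le (by simpa using hi) hN, smul_zero]

theorem nexp_semiconj {g N' : A} (h : g * N = N' * g) (r : ℕ) (w : ℂ) :
    g * nexp r N w = nexp r N' w * g := by
  simp only [nexp, mul_sum, sum_mul, mul_smul_comm, smul_mul_assoc]
  exact sum_congr rfl fun i _ => by rw [(SemiconjBy.pow_right h i).eq]

theorem commute_nexp {g : A} (h : Commute g N) (r : ℕ) (w : ℂ) : Commute g (nexp r N w) :=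
  nexp_semiconj h r w

theorem nlog_semiconj {g U' : A} (h : g * U = U' * g) (r : ℕ) :
    g * nlog r U = nlog r U' * g := by
  have h' : SemiconjBy g (U - 1) (U' - 1) := by
    rw [SemiconjBy, mul_sub, sub_mul, h, mul_one, one_mul]
  simp only [nlog, mul_sum, sum_mul, mul_smul_comm, smul_mul_assoc]
  exact sum_congr rfl fun i _ => by rw [(h'.pow_right i).eq]

theorem commute_nlog {g : A} (h : Commute g U) (r : ℕ) : Commute g (nlog r U) :=
  nlog_semiconj h r

theorem map_nexp {B F : Type*} [Ring B] [Algebra ℂ B] [FunLike F A B] [AlgHomClass F ℂ A B]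
    (f : F) (r : ℕ) (N : A) (w : ℂ) : f (nexp r N w) = nexp r (f N) w := by
  simp [nexp]

theorem map_nlog {B F : Type*} [Ring B] [Algebra ℂ B] [FunLike F A B] [AlgHomClass F ℂ A B]
    (f : F) (r : ℕ) (U : A) : f (nlog r U) = nlog r (f U) := by
  simp [nlog]

theorem X_dvd_nlog (r : ℕ) : (X : ℂ[X]) ∣ nlog r (1 + X : ℂ[X]) := by
  refine dvd_sum fun i _ => ?_
  rcases i with _ | i
  · simp
  · rw [add_sub_cancel_left, smul_eq_C_mul]
    exact (dvd_pow_self X i.succ_ne_zero).mul_left _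

theorem deriv_nlog (r : ℕ) :
    (1 + X) * derivative (nlog (r + 1) (1 + X : ℂ[X])) = 1 - (-X) ^ r := by
  induction r with
  | zero => simp [nlog]
  | succ r ih =>
    have h0 : ((r : ℂ) + 1) ≠ 0 := by exact_mod_cast r.succ_ne_zero
    have e : derivative (((-1) ^ (r + 1 + 1) / ((r + 1 : ℕ) : ℂ)) • (1 + X - 1 : ℂ[X]) ^ (r + 1))
        = (-X) ^ r := by
      rw [add_sub_cancel_left, derivative_smul, derivative_X_pow_succ, ← smul_eq_C_mul, smul_smul,
        neg_pow (X : ℂ[X]), show ((-1 : ℂ[X])) ^ r = C ((-1 : ℂ) ^ r) by simp, ← smul_eq_C_mul]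
      congr 1
      push_cast
      field_simp
      ring
    rw [nlog, sum_range_succ, derivative_add, mul_add, e]
    rw [nlog] at ih
    rw [ih]
    ring

theorem deriv_nexp (r : ℕ) (f : ℂ[X]) :
    derivative (nexp (r + 1) f 1) = derivative f * nexp r f 1 := by
  rw [nexp, nexp, sum_range_succ', derivative_add, derivative_sum, mul_sum]
  simp only [pow_zero, derivative_smul, derivative_one, smul_zero, add_zero]
  refine sum_congr rfl fun i _ => ?_
  have h0 : ((i : ℂ) + 1) ≠ 0 := by exact_mod_cast i.succ_ne_zero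
  have h1 : (i ! : ℂ) ≠ 0 := by exact_mod_cast i.factorial_ne_zero
  rw [derivative_pow_succ, mul_assoc, ← smul_eq_C_mul, smul_smul, mul_smul_comm, mul_comm (f ^ i)]
  congr 1
  rw [Nat.factorial_succ, one_pow, one_pow]
  push_cast
  field_simp

theorem X_pow_dvd_nexp_nlog (r : ℕ) :
    (X : ℂ[X]) ^ r ∣ nexp r (nlog r (1 + X : ℂ[X])) 1 - (1 + X) := by
  rcases r with _ | r
  · simp
  set l : ℂ[X] := nlog (r + 1) (1 + X) with hl
  set D : ℂ[X] := nexp (r + 1) l 1 - (1 + X) with hD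
  have h1 : (X : ℂ[X]) ^ r ∣ (1 + X) * derivative D - D := by
    have e : (1 + X) * derivative D - D
        = -((-X) ^ r * nexp r l 1) - ((1 : ℂ) ^ r / (r ! : ℂ)) • l ^ r := by
      rw [hD, derivative_sub, deriv_nexp, mul_sub, ← mul_assoc, hl, deriv_nlog, ← hl]
      conv_lhs => rw [nexp.eq_1 (r + 1), sum_range_succ, ← nexp.eq_1]
      simp only [derivative_add, derivative_one, derivative_X]
      ring
    rw [e, smul_eq_C_mul]
    refine dvd_sub (Dvd.dvd.neg_right (Dvd.dvd.mul_right ?_ _)) ?_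
    · exact pow_dvd_pow_of_dvd (dvd_refl (X : ℂ[X])).neg_right r
    · exact (pow_dvd_pow_of_dvd (X_dvd_nlog _) r).mul_left _
  rw [X_pow_dvd_iff] at h1 ⊢
  intro d
  induction d with
  | zero =>
    intro _
    have h0 : l.eval 0 = 0 := by
      rw [← coeff_zero_eq_eval_zero]
      exact X_dvd_iff.1 (X_dvd_nlog _)
    rw [coeff_zero_eq_eval_zero, hD, nexp, sum_range_succ']
    simp [eval_finsetSum, h0]
  | succ d ih =>
    intro hd
    have a1 := ih (by omega)
    have a2 := h1 d (by omega)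
    have h0 : ((d : ℂ) + 1) ≠ 0 := by exact_mod_cast d.succ_ne_zero
    rw [coeff_sub, add_mul, one_mul, coeff_add, coeff_derivative, a1] at a2
    have a3 : (X * derivative D).coeff d = 0 := by
      rcases d with _ | d
      · simp
      · rw [coeff_X_mul, coeff_derivative, a1, zero_mul]
    rw [a3, add_zero, sub_zero] at a2
    exact (mul_eq_zero.1 a2).resolve_right h0

theorem nlog_eq_aeval (r : ℕ) (U : A) : nlog r U = aeval (U - 1) (nlog r (1 + X : ℂ[X])) := by
  rw [map_nlog]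
  simp

theorem nlog_pow (hU : (U - 1) ^ r = 0) : nlog r U ^ r = 0 := by
  obtain ⟨g, hg⟩ := pow_dvd_pow_of_dvd (X_dvd_nlog r) r
  rw [nlog_eq_aeval, ← map_pow, hg, map_mul, map_pow, aeval_X, hU, zero_mul]

theorem nexp_nlog (hU : (U - 1) ^ r = 0) : nexp r (nlog r U) 1 = U := by
  obtain ⟨g, hg⟩ := X_pow_dvd_nexp_nlog r
  have := congrArg (aeval (U - 1)) hg
  rw [map_mul, map_pow, aeval_X, hU, zero_mul, map_sub, map_nexp, ← nlog_eq_aeval,
    sub_eq_zero] at this
  simpa using this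

theorem eq_zero_of_nexp_eq_one (hN : N ^ r = 0) (h : nexp r N 1 = 1) : N = 0 := by
  have key : ∀ j, N ^ (j + 1) = 0 → N = 0 := by
    intro j
    induction j with
    | zero => simp
    | succ j ih =>
      intro hj
      refine ih ?_
      have e := congrArg (N ^ j * ·) h
      rw [← nexp_of_le hN (Nat.le_add_right r 2)] at e
      simp only [nexp, sum_range_succ', mul_add, mul_sum, mul_smul_comm, ← pow_add] at e
      rw [sum_eq_zero fun i _ => by rw [pow_eq_zero_of_le (by omega) hj, smul_zero]] at e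
      simpa using e
  exact key r (by rw [pow_succ, hN, zero_mul])

theorem nexp_inj {N' : A} (hN : N ^ r = 0) (hN' : N' ^ r = 0) (hc : Commute N N')
    (h : nexp r N 1 = nexp r N' 1) : N = N' := by
  have a1 : N ^ (r + r) = 0 := pow_eq_zero_of_le (by omega) hN
  have a2 : (-N') ^ (r + r) = 0 :=
    pow_eq_zero_of_le (Nat.le_add_right r r) (by rw [neg_pow, hN', mul_zero])
  have a3 : (N + -N') ^ (r + r) = 0 :=
    hc.neg_right.add_pow_eq_zero_of_add_le_succ_of_pow_eq_zero hN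
      (n := r) (by rw [neg_pow, hN', mul_zero]) (by omega)
  refine add_neg_eq_zero.1 (eq_zero_of_nexp_eq_one a3 ?_)
  rw [nexp_add_comm a1 a2 a3 hc.neg_right, nexp_neg, nexp_of_le hN (by omega),
    nexp_of_le hN' (by omega), h, nexp_mul_neg hN']

theorem nexp_sub_one_pow (hN : N ^ r = 0) (w : ℂ) : (nexp r N w - 1) ^ r = 0 := by
  rcases r with _ | r
  · simpa using hN
  have : (X : ℂ[X]) ∣ nexp (r + 1) X w - 1 := by
    rw [X_dvd_iff, coeff_zero_eq_eval_zero, nexp, sum_range_succ']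
    simp [eval_finsetSum]
  obtain ⟨g, hg⟩ := pow_dvd_pow_of_dvd this (r + 1)
  have e := congrArg (aeval N) hg
  rwa [map_mul, map_pow, map_pow, aeval_X, hN, zero_mul, map_sub, map_nexp, aeval_X, map_one] at e

theorem nlog_nexp (hN : N ^ r = 0) : nlog r (nexp r N 1) = N :=
  nexp_inj (nlog_pow (nexp_sub_one_pow hN 1)) hN
    (commute_nlog (commute_nexp (Commute.refl N) r 1) r).symm (nexp_nlog (nexp_sub_one_pow hN 1))

theorem nlog_inv {V : A} (hU : (U - 1) ^ r = 0) (h : V * U = 1) : nlog r V = - nlog r U := by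
  have a := nlog_pow hU
  have e : V = nexp r (-nlog r U) 1 := by
    rw [nexp_neg, ← mul_one V, ← nexp_mul_neg a 1, nexp_nlog hU, ← mul_assoc, h, one_mul]
  rw [e, nlog_nexp (by rw [neg_pow, a, mul_zero])]

/-- the logarithm of the unipotent part of `T` -/
def mlog (r M : ℕ) (T : A) : A := (1 / (M : ℂ)) • nlog r (T ^ M)

/-- the part of finite order of `T` -/
def msig (r M : ℕ) (T : A) : A := T * nexp r (mlog r M T) (-1)

variable {M : ℕ} {T : A}

theorem mlog_pow (hT : (T ^ M - 1) ^ r = 0) : mlog r M T ^ r = 0 := by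
  rw [mlog, _root_.smul_pow, nlog_pow hT, smul_zero]

theorem nexp_mlog (hM : 0 < M) (hT : (T ^ M - 1) ^ r = 0) : nexp r (mlog r M T) M = T ^ M := by
  have h0 : (M : ℂ) ≠ 0 := by exact_mod_cast hM.ne'
  rw [mlog, nexp_smul, one_div, inv_mul_cancel₀ h0, nexp_nlog hT]

theorem mlog_semiconj {g T' : A} (h : g * T = T' * g) (r M : ℕ) :
    g * mlog r M T = mlog r M T' * g := by
  rw [mlog, mlog, mul_smul_comm, smul_mul_assoc, nlog_semiconj (SemiconjBy.pow_right h M).eq]

theorem commute_mlog {g : A} (h : Commute g T) (r M : ℕ) : Commute g (mlog r M T) :=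
  mlog_semiconj h r M

theorem commute_msig {g : A} (h : Commute g T) (r M : ℕ) : Commute g (msig r M T) :=
  h.mul_right (commute_nexp (commute_mlog h r M) r _)

theorem mlog_commute_msig (r M : ℕ) (T : A) : Commute (mlog r M T) (msig r M T) :=
  commute_msig (commute_mlog (Commute.refl T) r M).symm r M

theorem msig_mul_nexp (hT : (T ^ M - 1) ^ r = 0) : msig r M T * nexp r (mlog r M T) 1 = T := by
  rw [msig, mul_assoc, nexp_neg_mul (mlog_pow hT), mul_one]

theorem msig_pow (hM : 0 < M) (hT : (T ^ M - 1) ^ r = 0) : msig r M T ^ M = 1 := by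
  rw [msig, (commute_nexp (commute_mlog (Commute.refl T) r M) r _).mul_pow,
    ← nexp_nat_mul (mlog_pow hT), ← nexp_mlog hM hT, mul_neg_one, nexp_mul_neg (mlog_pow hT)]

theorem mlog_eq_zero_iff (hM : 0 < M) (hT : (T ^ M - 1) ^ r = 0) : mlog r M T = 0 ↔ T ^ M = 1 := by
  refine ⟨fun h => ?_, fun h => ?_⟩
  · rw [← nexp_mlog hM hT, ← one_mul (M : ℂ), ← nexp_smul, ← one_mul (M : ℂ)]
    have := nexp_zero (mlog_pow hT)
    rw [← zero_mul (1 * (M : ℂ)), ← nexp_smul, zero_smul] at this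
    rw [h, one_smul, this]
  · rw [mlog, h, nlog, sum_eq_zero, smul_zero]
    rintro (_ | i) _ <;> simp

end Alg

section Mat

open Matrix

variable {m n : Type*} [Fintype m] [DecidableEq m] [Fintype n] [DecidableEq n]
variable {r M : ℕ} {N U T Q : Matrix n n ℂ}

theorem pow_semiconj_rect {a : Matrix m m ℂ} {b : Matrix n n ℂ} {g : Matrix m n ℂ}
    (h : g * b = a * g) (i : ℕ) : g * b ^ i = a ^ i * g := by
  induction i with
  | zero => simp
  | succ i ih => rw [pow_succ, ← Matrix.mul_assoc, ih, Matrix.mul_assoc, h, pow_succ, Matrix.mul_assoc]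

theorem nexp_semiconj_rect {a : Matrix m m ℂ} {b : Matrix n n ℂ} {g : Matrix m n ℂ}
    (h : g * b = a * g) (r : ℕ) (w : ℂ) : g * nexp r b w = nexp r a w * g := by
  simp only [nexp, Matrix.mul_sum, Matrix.sum_mul, Matrix.mul_smul, Matrix.smul_mul]
  exact sum_congr rfl fun i _ => by rw [pow_semiconj_rect h]

theorem nlog_semiconj_rect {a : Matrix m m ℂ} {b : Matrix n n ℂ} {g : Matrix m n ℂ}
    (h : g * b = a * g) (r : ℕ) : g * nlog r b = nlog r a * g := by
  have h' : g * (b - 1) = (a - 1) * g := by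
    rw [Matrix.mul_sub, Matrix.sub_mul, h, Matrix.mul_one, Matrix.one_mul]
  simp only [nlog, Matrix.mul_sum, Matrix.sum_mul, Matrix.mul_smul, Matrix.smul_mul]
  exact sum_congr rfl fun i _ => by rw [pow_semiconj_rect h']

theorem mlog_semiconj_rect {a : Matrix m m ℂ} {b : Matrix n n ℂ} {g : Matrix m n ℂ}
    (h : g * b = a * g) (r M : ℕ) : g * mlog r M b = mlog r M a * g := by
  rw [mlog, mlog, Matrix.mul_smul, Matrix.smul_mul, nlog_semiconj_rect (pow_semiconj_rect h M)]

theorem nexp_conjTranspose (r : ℕ) (N : Matrix n n ℂ) (w : ℂ) :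
    (nexp r N w)ᴴ = nexp r Nᴴ (conj w) := by
  simp [nexp, conjTranspose_sum, conjTranspose_pow]

theorem nlog_conjTranspose (r : ℕ) (U : Matrix n n ℂ) : (nlog r U)ᴴ = nlog r Uᴴ := by
  simp [nlog, conjTranspose_sum, conjTranspose_pow]

theorem nlog_skew (hU : (U - 1) ^ r = 0) (hQ : Uᴴ * Q * U = Q) :
    (nlog r U)ᴴ * Q = -(Q * nlog r U) := by
  have a := nlog_pow hU
  have e1 : U * nexp r (nlog r U) (-1) = 1 := by
    have := nexp_mul_neg a 1
    rwa [nexp_nlog hU] at this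
  have e2 : nexp r (nlog r U) (-1) * U = 1 := by
    have := nexp_neg_mul a 1
    rwa [nexp_nlog hU] at this
  have e3 : Q * nexp r (nlog r U) (-1) = Uᴴ * Q := by
    conv_lhs => rw [← hQ, mul_assoc, e1, mul_one]
  rw [nlog_conjTranspose, ← nlog_semiconj e3, nlog_inv hU e2, mul_neg]

theorem pow_unitary (hQ : Tᴴ * Q * T = Q) (e : ℕ) : (T ^ e)ᴴ * Q * T ^ e = Q := by
  induction e with
  | zero => simp
  | succ e ih =>
    rw [pow_succ, conjTranspose_mul]
    calc Tᴴ * (T ^ e)ᴴ * Q * (T ^ e * T) = Tᴴ * ((T ^ e)ᴴ * Q * T ^ e) * T := by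
          simp only [mul_assoc]
      _ = Q := by rw [ih, hQ]

theorem mlog_skew (hT : (T ^ M - 1) ^ r = 0) (hQ : Tᴴ * Q * T = Q) :
    (mlog r M T)ᴴ * Q = -(Q * mlog r M T) := by
  rw [mlog, conjTranspose_smul, smul_mul_assoc, nlog_skew hT (pow_unitary hQ M), mul_smul_comm]
  simp

theorem nexp_adj (hQ : Nᴴ * Q = -(Q * N)) (r : ℕ) (w : ℂ) :
    (nexp r N w)ᴴ * Q = Q * nexp r N (-conj w) := by
  rw [nexp_conjTranspose, ← nexp_neg]
  exact (nexp_semiconj (by rw [hQ, mul_neg]) r _).symm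

theorem nexp_form (hN : N ^ r = 0) (hQ : Nᴴ * Q = -(Q * N)) (w w' : ℂ) :
    (nexp r N w')ᴴ * Q * nexp r N w = Q * nexp r N (w - conj w') := by
  rw [nexp_adj hQ, mul_assoc, ← nexp_add hN, neg_add_eq_sub]

theorem msig_unitary (hT : (T ^ M - 1) ^ r = 0) (hQ : Tᴴ * Q * T = Q) :
    (msig r M T)ᴴ * Q * msig r M T = Q := by
  have := nexp_form (mlog_pow hT) (mlog_skew hT hQ) (-1) (-1)
  rw [msig, conjTranspose_mul]
  calc (nexp r (mlog r M T) (-1))ᴴ * Tᴴ * Q * (T * nexp r (mlog r M T) (-1))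
      = (nexp r (mlog r M T) (-1))ᴴ * (Tᴴ * Q * T) * nexp r (mlog r M T) (-1) := by
        simp only [mul_assoc]
    _ = Q := by rw [hQ, this]; simp [nexp_zero (mlog_pow hT)]

theorem nexp_apply (r : ℕ) (N : Matrix n n ℂ) (w : ℂ) (i j : n) :
    nexp r N w i j = ∑ e ∈ range r, w ^ e / (e ! : ℂ) * (N ^ e) i j := by
  simp [nexp, Matrix.sum_apply]

theorem nexp_mulVec (r : ℕ) (N : Matrix n n ℂ) (w : ℂ) (v : n → ℂ) :
    nexp r N w *ᵥ v = ∑ e ∈ range r, (w ^ e / (e ! : ℂ)) • (N ^ e *ᵥ v) := by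
  simp [nexp, sum_mulVec, smul_mulVec]

theorem hasDerivAt_nexp (hN : N ^ r = 0) (w : ℂ) (i j : n) :
    HasDerivAt (fun w => nexp r N w i j) ((N * nexp r N w) i j) w := by
  have e : (fun w => nexp r N w i j)
      = fun w => ∑ e ∈ range r, w ^ (e + 1) / ((e + 1)! : ℂ) * (N ^ (e + 1)) i j + (1 : Matrix n n ℂ) i j := by
    funext w
    rw [← nexp_of_le hN (Nat.le_succ r), nexp_apply, sum_range_succ']
    simp
  have e' : (N * nexp r N w) i j = ∑ e ∈ range r, w ^ e / (e ! : ℂ) * (N ^ (e + 1)) i j := by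
    simp [nexp, mul_sum, Matrix.sum_apply, pow_succ']
  rw [e, e']
  refine HasDerivAt.add_const _ (HasDerivAt.fun_sum fun e _ => HasDerivAt.mul_const ?_ _)
  have h0 : ((e : ℂ) + 1) ≠ 0 := by exact_mod_cast e.succ_ne_zero
  have h1 : (e ! : ℂ) ≠ 0 := by exact_mod_cast e.factorial_ne_zero
  convert (hasDerivAt_pow (e + 1) w).div_const ((e + 1)! : ℂ) using 1
  rw [Nat.factorial_succ]
  push_cast
  field_simp

theorem hasDerivAt_nexp_mulVec (hN : N ^ r = 0) (w : ℂ) (v : n → ℂ) :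
    HasDerivAt (fun w => nexp r N w *ᵥ v) (N *ᵥ (nexp r N w *ᵥ v)) w := by
  rw [mulVec_mulVec, hasDerivAt_pi]
  intro i
  simp only [mulVec, dotProduct]
  exact HasDerivAt.fun_sum fun j _ => (hasDerivAt_nexp hN w i j).mul_const _

theorem analyticAt_nexp (r : ℕ) (N : Matrix n n ℂ) (i j : n) (w : ℂ) :
    AnalyticAt ℂ (fun w => nexp r N w i j) w := by
  simp only [nexp_apply]
  fun_prop

theorem differentiable_nexp (r : ℕ) (N : Matrix n n ℂ) (i j : n) :
    Differentiable ℂ fun w => nexp r N w i j := fun w => (analyticAt_nexp r N i j w).differentiableAt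

theorem det_nexp (hN : N ^ r = 0) (w : ℂ) : (nexp r N w).det ≠ 0 :=
  ((isUnit_iff_isUnit_det _).1 (isUnit_nexp hN w)).ne_zero

theorem inv_nexp (hN : N ^ r = 0) (w : ℂ) : (nexp r N w)⁻¹ = nexp r N (-w) :=
  inv_eq_right_inv (nexp_mul_neg hN w)

end Mat

end

end Pool.Agent.Lib.MP_5c318e_ag.M
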