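import Pool.Agent.Lib.MP_5c318e_ag.M.Hull
import Pool.Agent.Lib.MP_5c318e_ag.V.Alg

/-! Central flat endomorphisms have degree zero; the hull is a sub-structure. -/

set_option autoImplicit false
set_option linter.unusedSectionVars false

namespace Pool.Agent.Lib.MP_5c318e_ag.M

open Matrix Pool.Agent.Lib.MP_5c318e_ag.V
open scoped ComplexOrder ComplexConjugate

noncomputable section

section Gen

variable {n k : Type*} [Fintype n] [DecidableEq n] [Fintype k] [DecidableEq k]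

/-- if `z` commutes with the adjoint of `[Y, z]` then `[Y, z] = 0` -/
theorem cent {h Y z : Matrix n n ℂ} (H : h.PosDef)
    (hc : z * (h⁻¹ * (Y * z - z * Y)ᴴ * h) = h⁻¹ * (Y * z - z * Y)ᴴ * h * z) : Y * z = z * Y := by
  refine sub_eq_zero.1 (nsq_eq_zero H H ?_)
  rw [nsq, ip]
  generalize h⁻¹ * (Y * z - z * Y)ᴴ * h = W at hc
  rw [mul_sub, trace_sub, ← mul_assoc, trace_mul_comm, ← mul_assoc, hc, mul_assoc, sub_self]
  rfl

theorem adj_adj {h : Matrix n n ℂ} (H : h.PosDef) (e : Matrix n n ℂ) :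
    (h⁻¹ * eᴴ * h)ᴴ * h = h * e := by
  rw [conjTranspose_mul, conjTranspose_mul, H.1.eq, H.1.inv.eq, conjTranspose_conjTranspose,
    mul_assoc, mul_assoc, nonsing_inv_mul _ H.det_pos.ne'.isUnit, mul_one]

/-- a matrix that intertwines the grading elements intertwines the projectors -/
theorem prj_semiconj {S : Finset ℤ} {P : ℤ → Matrix n n ℂ} {P' : ℤ → Matrix k k ℂ} (a : Prj S P)
    (a' : Prj S P') {z : Matrix n k ℂ}
    (e : (∑ p ∈ S, (p : ℂ) • P p) * z = z * ∑ p ∈ S, (p : ℂ) • P' p) (p : ℤ) :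
    P p * z = z * P' p := by
  have key : ∀ p q, p ≠ q → P p * z * P' q = 0 := by
    intro p q hpq
    have := congrArg (fun A => P p * A * P' q) e
    simp only [← Matrix.mul_assoc] at this
    rw [a.mul_sum (fun p => (p : ℂ)) p, Matrix.mul_assoc (P p * z), a'.sum_mul (fun p => (p : ℂ)) q,
      Matrix.smul_mul, Matrix.smul_mul, Matrix.mul_smul, ← sub_eq_zero, ← sub_smul] at this
    exact (smul_eq_zero.1 this).resolve_left (sub_ne_zero.2 (by exact_mod_cast hpq))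
  have e1 : P p * z = P p * z * P' p := by
    conv_lhs => rw [← Matrix.mul_one (P p * z), ← a'.sum, Matrix.mul_sum]
    refine Finset.sum_eq_single p (fun q _ hq => key p q hq.symm) fun hp => ?_
    rw [a'.zero p hp, Matrix.mul_zero]
  have e2 : z * P' p = P p * z * P' p := by
    conv_lhs => rw [← Matrix.one_mul z, ← a.sum, Matrix.sum_mul, Matrix.sum_mul]
    refine Finset.sum_eq_single p (fun q _ hq => key q p hq) fun hp => ?_
    rw [a.zero p hp, Matrix.zero_mul, Matrix.zero_mul]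
  rw [e2, ← e1]

variable {T : Submodule ℂ (n → ℂ)} {B : Matrix n k ℂ} {C : Matrix k n ℂ}

theorem Lat.oprj_mul (L : Lat T B C) {h : Matrix n n ℂ} (H : h.PosDef) : oprj h B * B = B :=
  oprj_self (posDef_sub H L.inj)

/-- a matrix that commutes with the projector preserves the subspace -/
theorem Lat.stab_of_comm (L : Lat T B C) {h e : Matrix n n ℂ} (H : h.PosDef)
    (c : e * oprj h B = oprj h B * e) : Stab T e := fun v hv => by
  obtain ⟨a, rfl⟩ := L.mem_iff.1 hv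
  rw [← L.oprj_mul H, ← mulVec_mulVec a, mulVec_mulVec _ e, c, ← mulVec_mulVec]
  exact L.oprj_mem h _

theorem Lat.comm_of_stab (L : Lat T B C) {h e : Matrix n n ℂ} (H : h.PosDef) (a : Stab T e)
    (b : Stab T (h⁻¹ * eᴴ * h)) : e * oprj h B = oprj h B * e :=
  oprj_comm H (posDef_sub H L.inj) (adj_adj H e) (L.mul_res a) (L.mul_res b)

theorem Lat.res_comm_iff (L : Lat T B C) {a b : Matrix n n ℂ} (ha : Stab T a) (hb : Stab T b) :
    res B a * res B b = res B b * res B a ↔ a * b * B = b * a * B := by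
  rw [← L.res_mul ha hb, ← L.res_mul hb ha, L.mul_res (ha.mul hb), L.mul_res (hb.mul ha)]
  exact ⟨fun e => by rw [e], cancel_inj L.inj⟩

theorem Lat.res_comm (L : Lat T B C) {a b : Matrix n n ℂ} (ha : Stab T a) (hb : Stab T b)
    (e : a * b = b * a) : res B a * res B b = res B b * res B a :=
  (L.res_comm_iff ha hb).2 (by rw [e])

theorem Lat.res_adj (L : Lat T B C) {a a' Q : Matrix n n ℂ} (ha : Stab T a) (ha' : Stab T a')
    (e : a'ᴴ * Q = Q * a) : (res B a')ᴴ * (Bᴴ * Q * B) = Bᴴ * Q * B * res B a := by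
  rw [← Matrix.mul_assoc, ← Matrix.mul_assoc, ← conjTranspose_mul, ← L.mul_res ha',
    conjTranspose_mul, Matrix.mul_assoc Bᴴ, e, Matrix.mul_assoc _ B, ← L.mul_res ha]
  simp only [Matrix.mul_assoc]

theorem Lat.res_unitary (L : Lat T B C) {a Q : Matrix n n ℂ} (ha : Stab T a)
    (e : aᴴ * Q * a = Q) : (res B a)ᴴ * (Bᴴ * Q * B) * res B a = Bᴴ * Q * B := by
  rw [← Matrix.mul_assoc, ← Matrix.mul_assoc, ← conjTranspose_mul, ← L.mul_res ha,
    Matrix.mul_assoc _ B, ← L.mul_res ha, conjTranspose_mul]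
  conv_rhs => rw [← e]
  simp only [Matrix.mul_assoc]

theorem res_sum_smul (B : Matrix n k ℂ) {α : Type*} (s : Finset α) (c : α → ℂ)
    (f : α → Matrix n n ℂ) : res B (∑ p ∈ s, c p • f p) = ∑ p ∈ s, c p • res B (f p) := by
  simp only [res, Matrix.mul_sum, Matrix.sum_mul, Matrix.mul_smul, Matrix.smul_mul]

theorem stab_sum_smul {α : Type*} (s : Finset α) (c : α → ℂ) {f : α → Matrix n n ℂ}
    (h : ∀ p, Stab T (f p)) : Stab T (∑ p ∈ s, c p • f p) := fun v hv => by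
  rw [sum_mulVec]
  exact T.sum_mem fun p _ => by rw [smul_mulVec]; exact T.smul_mem _ (h p v hv)

theorem Lat.prj (L : Lat T B C) {S : Finset ℤ} {P : ℤ → Matrix n n ℂ} (a : Prj S P)
    (hs : ∀ p, Stab T (P p)) : Prj S fun p => res B (P p) where
  sum := by
    have := res_sum_smul B S (fun _ => 1) P
    simp only [one_smul] at this
    rw [← this, a.sum, L.res_one]
  idem := fun p => by rw [← L.res_mul (hs p) (hs p), a.idem]
  orth := fun p q e => by rw [← L.res_mul (hs p) (hs q), a.orth p q e]; simp [res]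
  zero := fun p e => by rw [a.zero p e]; simp [res]

end Gen

variable {ι κ : Type} [Fintype ι] [DecidableEq ι] [Fintype κ] [DecidableEq κ] {w : ℕ}
variable {B : Matrix ι κ ℂ} {C : Matrix κ ι ℂ}

section Sub

variable {T : Submodule ℂ (ι → ℂ)} {Q : Matrix ι ι ℂ} {P : ℤ → Matrix ι ι ℂ}

theorem res_grP (B : Matrix ι κ ℂ) (w : ℕ) (P : ℤ → Matrix ι ι ℂ) :
    res B (grP w P) = grP w fun p => res B (P p) := res_sum_smul B _ _ P

theorem res_weyP (B : Matrix ι κ ℂ) (w : ℕ) (P : ℤ → Matrix ι ι ℂ) :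
    res B (weyP w P) = weyP w fun p => res B (P p) := res_sum_smul B _ _ P

theorem Lat.metric (L : Lat T B C) (hs : ∀ p, Stab T (P p)) :
    Bᴴ * Q * B * weyP w (fun p => res B (P p)) = Bᴴ * (Q * weyP w P) * B := by
  rw [← res_weyP, Matrix.mul_assoc _ B, ← L.mul_res (g := weyP w P) (stab_sum_smul _ _ hs)]
  simp only [Matrix.mul_assoc]

/-- a graded subspace carries a polarised grading -/
theorem Lat.phs (L : Lat T B C) (H : PHS w Q P) (hs : ∀ p, Stab T (P p)) :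
    PHS w (Bᴴ * Q * B) fun p => res B (P p) where
  prj := L.prj H.prj hs
  adj := fun p => L.res_adj (hs p) (hs p) (H.adj p)
  pos := by rw [L.metric hs]; exact posDef_sub H.pos L.inj

/-- a unitary matrix of degree zero preserves the Hodge metric -/
theorem unitary_of_comm {g : Matrix ι ι ℂ} (hQ : gᴴ * Q * g = Q) (c : ∀ p, g * P p = P p * g) :
    gᴴ * (Q * weyP w P) * g = Q * weyP w P := by
  have : weyP w P * g = g * weyP w P := by
    simp only [weyP, Matrix.mul_sum, Matrix.sum_mul, Matrix.mul_smul, Matrix.smul_mul, c]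
  rw [mul_assoc, mul_assoc, this, ← mul_assoc, ← mul_assoc, hQ]

end Sub

variable {Γ : Subgroup (GL ι ℤ)} {V₁ : Submodule ℂ (ι → ℂ)} {h Y : Matrix ι ι ℂ}

/-- the fixed part theorem at one point -/
structure FixP (Γ : Subgroup (GL ι ℤ)) (h Y : Matrix ι ι ℂ) : Prop where
  pos : h.PosDef
  br : ∀ e ∈ Alg Γ, Y * e - e * Y ∈ Alg Γ
  adj : ∀ e ∈ Alg Γ, h⁻¹ * eᴴ * h ∈ Alg Γ

/-- central elements have degree zero -/
theorem FixP.cent (F : FixP Γ h Y) {z : Matrix ι ι ℂ} (hz : z ∈ Alg Γ)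
    (hc : ∀ e ∈ Alg Γ, z * e = e * z) : Y * z = z * Y :=
  M.cent F.pos (hc _ (F.adj _ (F.br z hz)))

theorem FixP.oprj_central (F : FixP Γ h Y) (L : Lat (HT Γ V₁) B C) {e : Matrix ι ι ℂ}
    (he : e ∈ Alg Γ) : e * oprj h B = oprj h B * e :=
  L.comm_of_stab F.pos (HT_stab_Alg he) (HT_stab_Alg (F.adj e he))

theorem FixP.comm_oprj (F : FixP Γ h Y) (L : Lat (HT Γ V₁) B C) (SS : oprj h B ∈ Alg Γ) :
    Y * oprj h B = oprj h B * Y := F.cent SS fun _ he => (F.oprj_central L he).symm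

/-- the hull is stable under the grading element -/
theorem FixP.stab (F : FixP Γ h Y) (L : Lat (HT Γ V₁) B C) (SS : oprj h B ∈ Alg Γ) :
    Stab (HT Γ V₁) Y := L.stab_of_comm F.pos (F.comm_oprj L SS)

theorem Nn_oprj_mem (hV : ∀ g ∈ Γ, Stab V₁ (cx g)) (L : Lat (HT Γ V₁) B C)
    (SS : oprj h B ∈ Alg Γ) {a : GL ι ℤ} (ha : a ∈ Nn Γ V₁) : cx a * oprj h B ∈ Alg Γ := by
  refine mem_Alg.2 fun g hg => ?_
  rw [mul_assoc, ← mem_Alg.1 SS g hg, ← mul_assoc, ← mul_assoc]
  refine ext_of_mulVec_single fun j => ?_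
  rw [← mulVec_mulVec, ← mulVec_mulVec _ (cx a * cx g)]
  exact (Nn_comm hV ha hg (L.oprj_mem h _)).symm

/-- elements of `Nn` commute with the grading element on the hull -/
theorem FixP.Nn_comm (F : FixP Γ h Y) (hV : ∀ g ∈ Γ, Stab V₁ (cx g)) (L : Lat (HT Γ V₁) B C)
    (SS : oprj h B ∈ Alg Γ) {a : GL ι ℤ} (ha : a ∈ Nn Γ V₁) : Y * cx a * B = cx a * Y * B := by
  have c := F.cent (Nn_oprj_mem hV L SS ha) fun e he => by
    rw [mul_assoc, ← F.oprj_central L he, ← mul_assoc, mem_Alg.1 he a ha.1, mul_assoc]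
  rw [mul_assoc (cx a), ← F.comm_oprj L SS] at c
  have := congrArg (· * B) c
  simpa only [Matrix.mul_assoc, L.oprj_mul F.pos] using this

theorem Nn_res_comm (hV : ∀ g ∈ Γ, Stab V₁ (cx g)) (L : Lat (HT Γ V₁) B C) {a g : GL ι ℤ}
    (ha : a ∈ Nn Γ V₁) (hg : g ∈ Γ) :
    res B (cx a) * res B (cx g) = res B (cx g) * res B (cx a) :=
  (L.res_comm_iff (HT_stab hV ha.1) (HT_stab hV hg)).2
    (L.mul_eq_iff.2 fun _ hv => Nn_comm hV ha hg hv)

variable {Q : Matrix ι ι ℂ} {P : ℤ → Matrix ι ι ℂ}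

/-- the hull at one point -/
theorem hull_point (hV : ∀ g ∈ Γ, Stab V₁ (cx g)) (L : Lat (HT Γ V₁) B C) (H : PHS w Q P)
    (F : FixP Γ (Q * weyP w P) (grP w P)) (SS : oprj (Q * weyP w P) B ∈ Alg Γ) :
    (∀ p, Stab (HT Γ V₁) (P p)) ∧ PHS w (Bᴴ * Q * B) (fun p => res B (P p)) ∧
      ∀ a ∈ Nn Γ V₁, ∀ p, res B (cx a) * res B (P p) = res B (P p) * res B (cx a) := by
  have hs : ∀ p, Stab (HT Γ V₁) (P p) := fun p =>
    L.stab_of_comm F.pos (prj_semiconj H.prj H.prj (F.comm_oprj L SS) p)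
  refine ⟨hs, L.phs H hs, fun a ha p => ?_⟩
  have c := (L.res_comm_iff (F.stab L SS) (HT_stab hV ha.1)).2 (F.Nn_comm hV L SS ha)
  rw [res_grP] at c
  exact (prj_semiconj (L.prj H.prj hs) (L.prj H.prj hs) c p).symm

/-- integral unitary matrices of degree zero: finitely many, of bounded order -/
theorem finite_deg_zero (H : PHS w Q P) :
    {g : GL ι ℤ | (cx g)ᴴ * Q * cx g = Q ∧ ∀ p, cx g * P p = P p * cx g}.Finite :=
  (finite_GL (unitary_finite H.pos)).subset fun _ hg => unitary_of_comm hg.1 hg.2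

theorem order_deg_zero (ι : Type) [Fintype ι] [DecidableEq ι] : ∃ M, 0 < M ∧
    ∀ (w : ℕ) (Q : Matrix ι ι ℂ) (P : ℤ → Matrix ι ι ℂ), PHS w Q P → ∀ g : GL ι ℤ,
      (cx g)ᴴ * Q * cx g = Q → (∀ p, cx g * P p = P p * cx g) → g ^ M = 1 := by
  obtain ⟨M, hM, K⟩ := unitary_order ι
  refine ⟨M, hM, fun w Q P H g a b => cx_injective ?_⟩
  rw [← cxHom_apply, map_pow, cxHom_apply, cx_one]
  exact K _ _ (isInt_cx g) H.pos (unitary_of_comm a b)

theorem scalar_pow {g : GL ι ℤ} {M : ℕ} (e : g ^ M = 1) {c : ℂ} {v : ι → ℂ} (hv : v ≠ 0)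
    (a : cx g *ᵥ v = c • v) : c ^ M = 1 := by
  have := pow_mulVec_eig a M
  rw [← cxHom_apply, ← map_pow, e, map_one, one_mulVec] at this
  exact smul_left_injective ℂ hv (by simpa using this.symm)

end

end Pool.Agent.Lib.MP_5c318e_ag.M
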