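import Pool.Agent.Lib.MP_5c318e_ag.M.Log
import Pool.Agent.Lib.MP_5c318e_ag.V.Defs

/-! Finiteness of bounded sets of integral matrices. -/

set_option autoImplicit false

namespace Pool.Agent.Lib.MP_5c318e_ag.M

open Matrix Pool.Agent.Lib.MP_5c318e_ag.V
open scoped ComplexOrder ComplexConjugate

variable {m n : Type*} [Fintype m] [Fintype n]

theorem finite_isInt_bdd (R : ℝ) :
    {g : Matrix m n ℂ | IsInt g ∧ ∀ i j, ‖g i j‖ ≤ R}.Finite := by
  have h : ((fun z : ℤ => (z : ℂ)) '' Set.Icc (-⌈R⌉) ⌈R⌉).Finite := (Set.finite_Icc _ _).image _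
  refine (Set.Finite.pi' fun _ : m => Set.Finite.pi' fun _ : n => h).subset ?_
  rintro g ⟨h1, h2⟩ i j
  obtain ⟨z, hz⟩ := h1 i j
  refine ⟨z, ?_, hz.symm⟩
  have := h2 i j
  rw [hz, Complex.norm_intCast] at this
  have : |z| ≤ ⌈R⌉ := by exact_mod_cast this.trans (Int.le_ceil R)
  exact abs_le.1 this

theorem sq_le_fro (g : Matrix m n ℂ) (i : m) (j : n) : ‖g i j‖ ^ 2 ≤ fro g :=
  (Finset.single_le_sum (f := fun j => ‖g i j‖ ^ 2) (fun _ _ => sq_nonneg _)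
    (Finset.mem_univ j)).trans (Finset.single_le_sum (f := fun i => ∑ j, ‖g i j‖ ^ 2)
      (fun _ _ => Finset.sum_nonneg fun _ _ => sq_nonneg _) (Finset.mem_univ i))

theorem finite_isInt_fro (R : ℝ) : {g : Matrix m n ℂ | IsInt g ∧ fro g ≤ R}.Finite :=
  (finite_isInt_bdd √R).subset fun g hg =>
    ⟨hg.1, fun i j => Real.le_sqrt_of_sq_le ((sq_le_fro g i j).trans hg.2)⟩

variable [DecidableEq m] [DecidableEq n]

theorem nsq_one_one (g : Matrix m n ℂ) : nsq 1 1 g = fro g := by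
  simpa using nsq_sqrt (1 : Matrix n n ℂ) (1 : Matrix m m ℂ) g

omit [DecidableEq m] in
theorem nsq_one_left (h : Matrix m m ℂ) (g : Matrix m n ℂ) :
    nsq 1 h g = (gᴴ * h * g).trace.re := by
  simp [nsq, ip]

theorem fro_le_nsq {h₁ : Matrix n n ℂ} {h₂ : Matrix m m ℂ} (H₁ : h₁.PosDef) (H₂ : h₂.PosDef)
    (g : Matrix m n ℂ) : fro g ≤ h₂⁻¹.trace.re * nsq h₁ h₂ g * h₁.trace.re := by
  have a := nsq_mul PosDef.one H₂ PosDef.one (1 : Matrix m m ℂ) g
  have b := nsq_mul PosDef.one H₁ H₂ g (1 : Matrix n n ℂ)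
  have c : nsq h₂ 1 (1 : Matrix m m ℂ) = h₂⁻¹.trace.re := by simp [nsq, ip]
  have d : nsq 1 h₁ (1 : Matrix n n ℂ) = h₁.trace.re := by simp [nsq, ip]
  rw [Matrix.one_mul, nsq_one_one, c] at a
  rw [Matrix.mul_one, d] at b
  rw [mul_assoc]
  exact a.trans (mul_le_mul_of_nonneg_left b (c ▸ nsq_nonneg H₂ PosDef.one _))

/-- finiteness, uniformly in the two metrics -/
theorem finite_nsq_unif (C : ℝ) : {g : Matrix m n ℂ | IsInt g ∧ ∃ h₁ h₂, h₁.PosDef ∧ h₂.PosDef ∧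
    nsq h₁ h₂ g ≤ C ∧ h₁.trace.re ≤ C ∧ h₂⁻¹.trace.re ≤ C}.Finite := by
  refine (finite_isInt_fro (C * C * C)).subset ?_
  rintro g ⟨hg, h₁, h₂, H₁, H₂, a, b, c⟩
  refine ⟨hg, (fro_le_nsq H₁ H₂ g).trans ?_⟩
  have a0 := nsq_nonneg H₁ H₂ g
  have b0 : 0 ≤ h₁.trace.re := by simpa [nsq, ip] using nsq_nonneg PosDef.one H₁ (1 : Matrix n n ℂ)
  have c0 : 0 ≤ C := a0.trans a
  gcongr

theorem finite_nsq {h₁ : Matrix n n ℂ} {h₂ : Matrix m m ℂ} (H₁ : h₁.PosDef) (H₂ : h₂.PosDef)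
    (C : ℝ) : {g : Matrix m n ℂ | IsInt g ∧ nsq h₁ h₂ g ≤ C}.Finite :=
  (finite_nsq_unif (max C (max h₁.trace.re h₂⁻¹.trace.re))).subset fun _ hg =>
    ⟨hg.1, h₁, h₂, H₁, H₂, hg.2.trans (le_max_left _ _), by simp, by simp⟩

/-- finiteness along a compact family of metrics -/
theorem finite_nsq_compact {X : Type*} [TopologicalSpace X] {K : Set X} (hK : IsCompact K)
    {h : X → Matrix m m ℂ} (hc : ContinuousOn h K) (hp : ∀ x ∈ K, (h x).PosDef)
    {h₁ : Matrix n n ℂ} (H₁ : h₁.PosDef) (C : ℝ) :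
    {g : Matrix m n ℂ | IsInt g ∧ ∃ x ∈ K, nsq h₁ (h x) g ≤ C}.Finite := by
  have c1 : ContinuousOn (fun x => (h x)⁻¹.trace.re) K := by
    refine Complex.continuous_re.comp_continuousOn
      ((continuous_id.matrix_trace (R := ℂ)).comp_continuousOn fun x hx => ?_)
    refine ContinuousAt.comp_continuousWithinAt (continuousAt_matrix_inv _ ?_) (hc x hx)
    rw [Ring.inverse_eq_inv']
    exact continuousAt_inv₀ (hp x hx).det_pos.ne'
  obtain ⟨B, hB⟩ := (hK.image_of_continuousOn c1).bddAbove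
  refine (finite_nsq_unif (max C (max h₁.trace.re B))).subset ?_
  rintro g ⟨hg, x, hx, a⟩
  exact ⟨hg, h₁, h x, H₁, hp x hx, a.trans (le_max_left _ _), by simp,
    (hB ⟨x, hx, rfl⟩).trans (by simp)⟩

theorem finite_trace_compact {X : Type*} [TopologicalSpace X] {K : Set X} (hK : IsCompact K)
    {h : X → Matrix m m ℂ} (hc : ContinuousOn h K) (hp : ∀ x ∈ K, (h x).PosDef) (C : ℝ) :
    {g : Matrix m n ℂ | IsInt g ∧ ∃ x ∈ K, (gᴴ * h x * g).trace.re ≤ C}.Finite := by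
  simpa only [nsq_one_left] using finite_nsq_compact hK hc hp (PosDef.one (n := n)) C

variable {h g : Matrix n n ℂ}

theorem unitary_finite (H : h.PosDef) : {g : Matrix n n ℂ | IsInt g ∧ gᴴ * h * g = h}.Finite :=
  (finite_nsq PosDef.one H h.trace.re).subset fun g hg => ⟨hg.1, by rw [nsq_one_left, hg.2]⟩

theorem unitary_det_ne (H : h.PosDef) (hg : gᴴ * h * g = h) : g.det ≠ 0 := by
  intro e
  have := congrArg det hg
  rw [det_mul, e, mul_zero] at this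
  exact H.det_pos.ne this

omit [DecidableEq n] in
theorem unitary_eig (H : h.PosDef) (hg : gᴴ * h * g = h) {z : ℂ} {v : n → ℂ} (hv : v ≠ 0)
    (e : g *ᵥ v = z • v) : ‖z‖ = 1 := by
  have p := H.dotProduct_mulVec_pos hv
  have a : star v ⬝ᵥ h *ᵥ v = (star z * z) * (star v ⬝ᵥ h *ᵥ v) := by
    conv_lhs => rw [← hg, ← mulVec_mulVec, ← mulVec_mulVec, dotProduct_mulVec, ← star_mulVec, e]
    rw [star_smul, mulVec_smul, smul_dotProduct, dotProduct_smul, smul_eq_mul, smul_eq_mul,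
      mul_assoc]
  have b : star z * z = 1 := mul_right_cancel₀ p.ne' (by rw [← a, one_mul])
  have c : (‖z‖ : ℂ) ^ 2 = 1 := by rw [← Complex.conj_mul' z]; exact b
  have d : ‖z‖ ^ 2 = 1 := by exact_mod_cast c
  exact (pow_eq_one_iff_of_nonneg (norm_nonneg z) two_ne_zero).1 d

/-- a nilpotent skew adjoint matrix vanishes -/
theorem eq_zero_of_skew (H : h.PosDef) {N : Matrix n n ℂ} (hN : IsNilpotent N)
    (a : Nᴴ * h = -(h * N)) : N = 0 := by
  refine nsq_eq_zero H H ?_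
  have t : (N * N).trace = 0 :=
    (isNilpotent_trace_of_isNilpotent ((Commute.refl N).isNilpotent_mul_left hN)).eq_zero
  rw [nsq, ip_adj H.det_pos.ne'.isUnit (T := -N) (by rw [a, mul_neg]), neg_mul, trace_neg, t]
  simp

/-- a quasi-unipotent unitary matrix has finite order -/
theorem unitary_pow_eq_one (H : h.PosDef) (hg : gᴴ * h * g = h) {M r : ℕ} (hM : 0 < M)
    (hu : (g ^ M - 1) ^ r = 0) : g ^ M = 1 :=
  (mlog_eq_zero_iff hM hu).1 (eq_zero_of_skew H ⟨r, mlog_pow hu⟩ (mlog_skew hu hg))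

/-- integral unitary matrices have a bounded order -/
theorem unitary_order (n : Type*) [Fintype n] [DecidableEq n] : ∃ M, 0 < M ∧
    ∀ g h : Matrix n n ℂ, IsInt g → h.PosDef → gᴴ * h * g = h → g ^ M = 1 := by
  obtain ⟨M, hM, K⟩ := kron_unif n
  exact ⟨M, hM, fun g h hi H hg => unitary_pow_eq_one H hg hM
    (K g hi (unitary_det_ne H hg) fun z v hv e => (unitary_eig H hg hv e).le).1⟩

section Units

variable {ι : Type} [Fintype ι] [DecidableEq ι]

theorem isInt_cx (g : GL ι ℤ) : IsInt (cx g) := fun i j => ⟨(g : Matrix ι ι ℤ) i j, rfl⟩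

/-- `cx` as a homomorphism -/
def cxHom (ι : Type) [Fintype ι] [DecidableEq ι] : GL ι ℤ →* Matrix ι ι ℂ :=
  ((Int.castRingHom ℂ).mapMatrix : Matrix ι ι ℤ →+* Matrix ι ι ℂ).toMonoidHom.comp (Units.coeHom _)

theorem cxHom_apply (g : GL ι ℤ) : cxHom ι g = cx g := rfl

theorem cx_injective : Function.Injective (cx : GL ι ℤ → Matrix ι ι ℂ) := fun _ _ e =>
  Units.ext (map_injective Int.cast_injective e)

theorem cx_det_ne (g : GL ι ℤ) : (cx g).det ≠ 0 :=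
  ((isUnit_iff_isUnit_det _).1 ((Group.isUnit g).map (cxHom ι))).ne_zero

theorem finite_GL {p : Matrix ι ι ℂ → Prop} (hS : {g | IsInt g ∧ p g}.Finite) :
    {g : GL ι ℤ | p (cx g)}.Finite :=
  (hS.preimage cx_injective.injOn).subset fun g hg => ⟨isInt_cx g, hg⟩

theorem finite_GL_trace {X : Type*} [TopologicalSpace X] {K : Set X} (hK : IsCompact K)
    {h : X → Matrix ι ι ℂ} (hc : ContinuousOn h K) (hp : ∀ x ∈ K, (h x).PosDef) (C : ℝ) :
    {g : GL ι ℤ | ∃ x ∈ K, ((cx g)ᴴ * h x * cx g).trace.re ≤ C}.Finite :=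
  finite_GL (finite_trace_compact hK hc hp C)

theorem kron_GL (ι : Type) [Fintype ι] [DecidableEq ι] : ∃ M, 0 < M ∧ ∀ g : GL ι ℤ,
    (∀ (z : ℂ) (v : ι → ℂ), v ≠ 0 → cx g *ᵥ v = z • v → ‖z‖ ≤ 1) →
    (cx g ^ M - 1) ^ Fintype.card ι = 0 := by
  obtain ⟨M, hM, K⟩ := kron_unif ι
  exact ⟨M, hM, fun g hg => (K _ (isInt_cx g) (cx_det_ne g) hg).1⟩

end Units

end Pool.Agent.Lib.MP_5c318e_ag.M
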