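import Pool.Agent.Lib.MP_5c318e_ag.M.Fin
import Pool.Agent.Lib.MP_5c318e_ag.V.Det

/-! The rational hull of a complex subspace and its integral bases. -/

set_option autoImplicit false
set_option linter.unusedSectionVars false

namespace Pool.Agent.Lib.MP_5c318e_ag.M

open Matrix Pool.Agent.Lib.MP_5c318e_ag.V
open scoped ComplexOrder ComplexConjugate

noncomputable section

variable {m n k : Type*}

/-- all entries are rational -/
def IsRat (A : Matrix m n ℂ) : Prop := ∀ i j, ∃ q : ℚ, A i j = q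

theorem IsInt.isRat {A : Matrix m n ℂ} (h : IsInt A) : IsRat A := fun i j => by
  obtain ⟨z, hz⟩ := h i j
  exact ⟨z, by simp [hz]⟩

theorem IsRat.sub {A B : Matrix m n ℂ} (hA : IsRat A) (hB : IsRat B) : IsRat (A - B) :=
  fun i j => by
  obtain ⟨a, ha⟩ := hA i j
  obtain ⟨b, hb⟩ := hB i j
  exact ⟨a - b, by simp [ha, hb]⟩

theorem IsRat.mul [Fintype n] {A : Matrix m n ℂ} {B : Matrix n k ℂ} (hA : IsRat A) (hB : IsRat B) :
    IsRat (A * B) := fun i j => by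
  choose a ha using hA
  choose b hb using hB
  exact ⟨∑ l, a i l * b l j, by simp [mul_apply, ha, hb]⟩

/-- the rational vector read off a complex vector by a rational functional -/
def rd {α : Type*} (φ : ℂ →ₗ[ℚ] ℚ) (v : α → ℂ) : α → ℂ := fun i => (φ (v i) : ℂ)

/-- a vector is a combination of its rational parts -/
theorem mem_of_rd {α : Type*} [Finite α] (S : Submodule ℂ (α → ℂ)) {v : α → ℂ}
    (h : ∀ φ, rd φ v ∈ S) : v ∈ S := by
  classical
  have := Fintype.ofFinite α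
  let b := Module.Basis.ofVectorSpace ℚ ℂ
  have e : v = ∑ a ∈ Finset.univ.biUnion fun i => (b.repr (v i)).support,
      b a • rd (b.coord a) v := by
    funext i
    rw [Finset.sum_apply]
    conv_lhs => rw [← b.linearCombination_repr (v i), Finsupp.linearCombination_apply,
      Finsupp.sum_of_support_subset _ (Finset.subset_biUnion_of_mem
        (fun i => (b.repr (v i)).support) (Finset.mem_univ i)) _ (by simp)]
    refine Finset.sum_congr rfl fun a _ => ?_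
    simp [rd, Rat.smul_def, mul_comm]
  rw [e]
  exact S.sum_mem fun a _ => S.smul_mem _ (h _)

theorem map_rat_mul (φ : ℂ →ₗ[ℚ] ℚ) (q : ℚ) (z : ℂ) : φ (q * z) = q * φ z := by
  rw [← Rat.smul_def, map_smul, smul_eq_mul]

variable [Fintype n]

theorem rd_mulVec (φ : ℂ →ₗ[ℚ] ℚ) {A : Matrix m n ℂ} (hA : IsRat A) (v : n → ℂ) :
    rd φ (A *ᵥ v) = A *ᵥ rd φ v := by
  choose a ha using hA
  funext i
  simp [rd, mulVec, dotProduct, ha, map_rat_mul]

/-- the smallest rational subspace that contains `I` -/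
def hull (I : Submodule ℂ (n → ℂ)) : Submodule ℂ (n → ℂ) where
  carrier := {v | ∀ ξ : n → ℚ, (∀ u ∈ I, ∑ i, (ξ i : ℂ) * u i = 0) → ∑ i, (ξ i : ℂ) * v i = 0}
  add_mem' := fun ha hb ξ h => by
    simp only [Pi.add_apply, mul_add, Finset.sum_add_distrib, ha ξ h, hb ξ h, add_zero]
  zero_mem' := fun ξ _ => by simp
  smul_mem' := fun c v hv ξ h => by
    simp only [Pi.smul_apply, smul_eq_mul, mul_left_comm _ c, ← Finset.mul_sum, hv ξ h, mul_zero]

variable {I J : Submodule ℂ (n → ℂ)}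

theorem mem_hull {v : n → ℂ} : v ∈ hull I ↔
    ∀ ξ : n → ℚ, (∀ u ∈ I, ∑ i, (ξ i : ℂ) * u i = 0) → ∑ i, (ξ i : ℂ) * v i = 0 := Iff.rfl

theorem le_hull (I : Submodule ℂ (n → ℂ)) : I ≤ hull I := fun v hv _ h => h v hv

theorem hull_le_hull (h : I ≤ hull J) : hull I ≤ hull J :=
  fun _ hv ξ hξ => hv ξ fun _ hu => h hu ξ hξ

theorem hull_mono (h : I ≤ J) : hull I ≤ hull J := hull_le_hull (h.trans (le_hull J))

/-- a rational matrix that kills `I` kills its hull -/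
theorem hull_ker {A : Matrix m n ℂ} (hA : IsRat A) (h : ∀ u ∈ I, A *ᵥ u = 0) {v : n → ℂ}
    (hv : v ∈ hull I) : A *ᵥ v = 0 := by
  choose a ha using hA
  funext i
  have := hv (a i) fun u hu => by simpa [mulVec, dotProduct, ha] using congrFun (h u hu) i
  simpa [mulVec, dotProduct, ha] using this

theorem hull_map [Fintype m] {A : Matrix m n ℂ} (hA : IsRat A) {J : Submodule ℂ (m → ℂ)}
    (h : ∀ u ∈ I, A *ᵥ u ∈ hull J) {v : n → ℂ} (hv : v ∈ hull I) : A *ᵥ v ∈ hull J := by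
  intro ξ hξ
  have r : IsRat (Matrix.of fun (_ : Unit) i => (ξ i : ℂ)) := fun _ i => ⟨ξ i, rfl⟩
  have := hull_ker (r.mul hA) (fun u hu => by
    rw [← mulVec_mulVec]
    funext _
    exact h u hu ξ hξ) hv
  rw [← mulVec_mulVec] at this
  exact congrFun this ()

theorem rd_mem_hull (φ : ℂ →ₗ[ℚ] ℚ) {v : n → ℂ} (hv : v ∈ hull I) : rd φ v ∈ hull I := by
  intro ξ hξ
  have := congrArg (fun z => (φ z : ℂ)) (hv ξ hξ)
  simpa [rd, map_rat_mul] using this

/-- `g` preserves `T` -/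
def Stab (T : Submodule ℂ (n → ℂ)) (g : Matrix n n ℂ) : Prop := ∀ v ∈ T, g *ᵥ v ∈ T

theorem Stab.hull {g : Matrix n n ℂ} (h : Stab I g) (hg : IsRat g) : Stab (hull I) g :=
  fun _ hv => hull_map hg (fun u hu => le_hull I (h u hu)) hv

theorem Stab.mul {g g' : Matrix n n ℂ} (h : Stab I g) (h' : Stab I g') : Stab I (g * g') :=
  fun v hv => by rw [← mulVec_mulVec]; exact h _ (h' v hv)

/-- the columns of `B` are an integral basis of `T`, with integral coordinates `C` -/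
structure Lat [Fintype k] [DecidableEq k] (T : Submodule ℂ (n → ℂ)) (B : Matrix n k ℂ)
    (C : Matrix k n ℂ) : Prop where
  intB : IsInt B
  intC : IsInt C
  inv : C * B = 1
  mem : ∀ v, v ∈ T ↔ B *ᵥ (C *ᵥ v) = v

theorem exists_lat (I : Submodule ℂ (n → ℂ)) :
    ∃ (s : ℕ) (B : Matrix n (Fin s) ℂ) (C : Matrix (Fin s) n ℂ), Lat (hull I) B C := by
  classical
  let c : (n → ℤ) →ₗ[ℤ] (n → ℂ) := (Int.castAddHom ℂ).toIntLinearMap.compLeft n
  have hc : ∀ x i, c x i = (x i : ℂ) := fun _ _ => rfl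
  let f : (n → ℤ) →ₗ[ℤ] ((n → ℂ) ⧸ hull I) := ((hull I).mkQ.restrictScalars ℤ).comp c
  have hf : ∀ x, x ∈ LinearMap.ker f.rangeRestrict ↔ c x ∈ hull I := fun x => by
    rw [LinearMap.ker_rangeRestrict, LinearMap.mem_ker]
    exact Submodule.Quotient.mk_eq_zero _
  have tf : IsAddTorsionFree ((n → ℂ) ⧸ hull I) := .of_isTorsionFree ℂ _
  have fr : Module.Free ℤ (LinearMap.range f) := inferInstance
  obtain ⟨σ, hσ⟩ := f.rangeRestrict.exists_rightInverse_of_surjective f.range_rangeRestrict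
  set L := LinearMap.ker f.rangeRestrict with hL
  let ρ : (n → ℤ) →ₗ[ℤ] L := (LinearMap.id - σ ∘ₗ f.rangeRestrict).codRestrict L fun x => by
    have := LinearMap.congr_fun hσ (f.rangeRestrict x)
    rw [hL, LinearMap.mem_ker, LinearMap.sub_apply, map_sub]
    exact sub_eq_zero.2 this.symm
  have hρ : ∀ x : L, ρ x = x := fun x => by
    have : f.rangeRestrict x = 0 := x.2
    ext1
    simp [ρ, this]
  obtain ⟨s, b⟩ := Submodule.basisOfPid (Pi.basisFun ℤ n) L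
  let B : Matrix n (Fin s) ℤ := LinearMap.toMatrix b (Pi.basisFun ℤ n) L.subtype
  let C : Matrix (Fin s) n ℤ := LinearMap.toMatrix (Pi.basisFun ℤ n) b ρ
  have e1 : C * B = 1 := by
    rw [← LinearMap.toMatrix_comp, ← LinearMap.toMatrix_id b]
    congr 1
    exact LinearMap.ext hρ
  have e2 : ∀ x : n → ℤ, (B * C) *ᵥ x = (ρ x : n → ℤ) := fun x => by
    have := LinearMap.toMatrix_mulVec_repr (Pi.basisFun ℤ n) (Pi.basisFun ℤ n) (L.subtype ∘ₗ ρ) x
    rw [LinearMap.toMatrix_comp _ b] at this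
    exact this
  have e3 : ∀ x : n → ℤ, (B * C).map (Int.castRingHom ℂ) *ᵥ c x = c (ρ x) := fun x => by
    funext i
    rw [← e2, hc]
    exact ((Int.castRingHom ℂ).map_mulVec (B * C) x i).symm
  refine ⟨s, B.map (Int.castRingHom ℂ), C.map (Int.castRingHom ℂ), isInt_map B, isInt_map C,
    by rw [← Matrix.map_mul, e1]; simp, fun v => ?_⟩
  rw [mulVec_mulVec, ← Matrix.map_mul]
  set R := (B * C).map (Int.castRingHom ℂ)
  constructor
  · intro hv
    refine mem_of_rd (LinearMap.eqLocus R.mulVecLin LinearMap.id) fun φ => ?_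
    obtain ⟨d, hd⟩ := IsLocalization.exist_integer_multiples_of_finite (nonZeroDivisors ℤ)
      (S := ℚ) fun i => φ (v i)
    choose x hx using hd
    have d0 : ((d : ℤ) : ℂ) ≠ 0 := by exact_mod_cast nonZeroDivisors.coe_ne_zero d
    have ex : c x = ((d : ℤ) : ℂ) • rd φ v := by
      funext i
      have := congrArg (fun q : ℚ => (q : ℂ)) (hx i)
      simpa [hc, rd] using this
    have hxL : x ∈ L := (hf x).2 (ex ▸ (hull I).smul_mem _ (rd_mem_hull φ hv))
    have := e3 x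
    rw [hρ ⟨x, hxL⟩, ex, mulVec_smul] at this
    exact smul_right_injective _ d0 this
  · intro hv
    rw [← hv, ← (Pi.basisFun ℂ n).sum_repr v, mulVec_sum]
    refine (hull I).sum_mem fun j _ => ?_
    rw [mulVec_smul]
    refine (hull I).smul_mem _ ?_
    have : Pi.basisFun ℂ n j = c (Pi.single j 1) := by
      funext i
      simp [hc, Pi.single_apply]
    rw [this, e3]
    exact (hf _).1 (ρ _).2

namespace Lat

variable [Fintype k] [DecidableEq k] {T : Submodule ℂ (n → ℂ)} {B : Matrix n k ℂ}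
  {C : Matrix k n ℂ}

theorem mulVec_mem (L : Lat T B C) (a : k → ℂ) : B *ᵥ a ∈ T := by
  rw [L.mem, mulVec_mulVec a C B, L.inv, one_mulVec]

theorem mem_iff (L : Lat T B C) {v : n → ℂ} : v ∈ T ↔ ∃ a, B *ᵥ a = v :=
  ⟨fun h => ⟨_, (L.mem v).1 h⟩, fun ⟨a, h⟩ => h ▸ L.mulVec_mem a⟩

theorem inj (L : Lat T B C) : Function.Injective B.mulVec := fun a b h => by
  have := congrArg C.mulVec h
  rwa [mulVec_mulVec, mulVec_mulVec, L.inv, one_mulVec, one_mulVec] at this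

theorem card_le (L : Lat T B C) : Fintype.card k ≤ Fintype.card n := by
  simpa using LinearMap.finrank_le_finrank_of_injective (f := B.mulVecLin) L.inj

/-- two matrices that agree on `T` -/
theorem mul_eq_iff (L : Lat T B C) {g g' : Matrix m n ℂ} :
    g * B = g' * B ↔ ∀ v ∈ T, g *ᵥ v = g' *ᵥ v := by
  refine ⟨fun h v hv => ?_, fun h => ?_⟩
  · obtain ⟨a, rfl⟩ := L.mem_iff.1 hv
    rw [mulVec_mulVec, mulVec_mulVec, h]
  · refine ext_of_mulVec_single fun j => ?_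
    rw [← mulVec_mulVec, ← mulVec_mulVec]
    exact h _ (L.mulVec_mem _)

theorem mul_eq (L : Lat T B C) {g : Matrix n n ℂ} (h : Stab T g) : g * B = B * (C * g * B) := by
  rw [← Matrix.mul_assoc, L.mul_eq_iff]
  intro v hv
  rw [← mulVec_mulVec, ← mulVec_mulVec, (L.mem _).1 (h v hv)]

theorem stab_of (L : Lat T B C) {g : Matrix n n ℂ} {S : Matrix k k ℂ} (h : g * B = B * S) :
    Stab T g := fun v hv => by
  obtain ⟨a, rfl⟩ := L.mem_iff.1 hv
  rw [mulVec_mulVec, h, ← mulVec_mulVec]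
  exact L.mulVec_mem _

variable [DecidableEq n]

theorem res_eq' (L : Lat T B C) {g : Matrix n n ℂ} (h : Stab T g) : res B g = C * g * B :=
  res_eq L.inj (L.mul_eq h)

theorem mul_res (L : Lat T B C) {g : Matrix n n ℂ} (h : Stab T g) : g * B = B * res B g := by
  rw [L.res_eq' h, L.mul_eq h]

theorem isInt_res (L : Lat T B C) {g : Matrix n n ℂ} (h : Stab T g) (hg : IsInt g) :
    IsInt (res B g) := by
  rw [L.res_eq' h]
  exact (L.intC.mul hg).mul L.intB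

theorem res_one (L : Lat T B C) : res B 1 = 1 := res_eq L.inj (by simp)

theorem res_mul (L : Lat T B C) {g g' : Matrix n n ℂ} (h : Stab T g) (h' : Stab T g') :
    res B (g * g') = res B g * res B g' :=
  res_eq L.inj (by rw [Matrix.mul_assoc, L.mul_res h', ← Matrix.mul_assoc, L.mul_res h,
    Matrix.mul_assoc])

theorem oprj_mem (L : Lat T B C) (h : Matrix n n ℂ) (v : n → ℂ) : oprj h B *ᵥ v ∈ T := by
  rw [oprj, ← mulVec_mulVec]
  exact L.mulVec_mem _

end Lat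

section Grp

variable {ι κ : Type} [Fintype ι] [DecidableEq ι] [Fintype κ] [DecidableEq κ]

theorem norm_det_cx (g : GL ι ℤ) : ‖(cx g).det‖ = 1 := by
  have e : (cx g).det = ((g : Matrix ι ι ℤ).det : ℂ) := ((Int.castRingHom ℂ).map_det _).symm
  rcases Int.isUnit_iff.1 ((isUnit_iff_isUnit_det _).1 g.isUnit) with h | h <;> simp [e, h]

/-- the action of a group on an integral basis -/
theorem Lat.exists_hom {T : Submodule ℂ (ι → ℂ)} {B : Matrix ι κ ℂ} {C : Matrix κ ι ℂ}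
    (L : Lat T B C) (Γ : Subgroup (GL ι ℤ)) (h : ∀ g ∈ Γ, Stab T (cx g)) :
    ∃ ρ : Γ →* GL κ ℤ, ∀ g : Γ, cx (ρ g) = res B (cx g) := by
  choose r hr using fun g : Γ => isInt_iff.1 (L.isInt_res (h g g.2) (isInt_cx g.1))
  have inj : Function.Injective fun A : Matrix κ κ ℤ => A.map (Int.castRingHom ℂ) :=
    map_injective Int.cast_injective
  let r' : Γ →* Matrix κ κ ℤ :=
    { toFun := r
      map_one' := inj (by
        have : cx ((1 : Γ) : GL ι ℤ) = 1 := (cxHom ι).map_one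
        simp only [← hr, this, L.res_one]
        simp)
      map_mul' := fun g g' => inj (by
        have : cx ((g * g' : Γ) : GL ι ℤ) = cx g * cx g' := (cxHom ι).map_mul _ _
        simp only [Matrix.map_mul, ← hr, this, L.res_mul (h g g.2) (h g' g'.2)]) }
  exact ⟨r'.toHomUnits, fun g => (hr g).symm⟩

/-- the endomorphisms that commute with `Γ` -/
def Alg (Γ : Subgroup (GL ι ℤ)) : Subalgebra ℂ (Matrix ι ι ℂ) :=
  Subalgebra.centralizer ℂ (cx '' (Γ : Set (GL ι ℤ)))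

variable {Γ : Subgroup (GL ι ℤ)} {V₁ : Submodule ℂ (ι → ℂ)}

theorem mem_Alg {e : Matrix ι ι ℂ} : e ∈ Alg Γ ↔ ∀ g ∈ Γ, cx g * e = e * cx g := by
  simp [Alg, Subalgebra.mem_centralizer_iff]

/-- the commutant is spanned by its rational elements -/
theorem Alg_induction (S : Submodule ℂ (Matrix ι ι ℂ)) (h : ∀ e ∈ Alg Γ, IsRat e → e ∈ S)
    {e : Matrix ι ι ℂ} (he : e ∈ Alg Γ) : e ∈ S := by
  let u : (ι × ι → ℂ) →ₗ[ℂ] Matrix ι ι ℂ :=
    { toFun := fun v => Matrix.of fun i j => v (i, j)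
      map_add' := fun _ _ => rfl
      map_smul' := fun _ _ => rfl }
  refine mem_of_rd (S.comap u) (v := fun p => e p.1 p.2) fun φ => ?_
  refine h _ (mem_Alg.2 fun g hg => ?_) fun i j => ⟨_, rfl⟩
  choose a ha using (isInt_cx g).isRat
  ext i j
  have := congrArg (fun A : Matrix ι ι ℂ => (φ (A i j) : ℂ)) (mem_Alg.1 he g hg)
  simp only [mul_apply, ha, map_sum, mul_comm _ (a _ _ : ℂ), map_rat_mul] at this ⊢
  push_cast at this
  exact this

/-- the span of `Alg · V₁` -/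
def sat (Γ : Subgroup (GL ι ℤ)) (V₁ : Submodule ℂ (ι → ℂ)) : Submodule ℂ (ι → ℂ) :=
  Submodule.span ℂ {u | ∃ e ∈ Alg Γ, ∃ v ∈ V₁, u = e *ᵥ v}

/-- the rational hull of `Alg · V₁` -/
def HT (Γ : Subgroup (GL ι ℤ)) (V₁ : Submodule ℂ (ι → ℂ)) : Submodule ℂ (ι → ℂ) := hull (sat Γ V₁)

theorem le_sat : V₁ ≤ sat Γ V₁ := fun v hv =>
  Submodule.subset_span ⟨1, one_mem _, v, hv, (one_mulVec v).symm⟩

theorem le_HT : V₁ ≤ HT Γ V₁ := le_sat.trans (le_hull _)

theorem stab_span {S : Set (ι → ℂ)} {g : Matrix ι ι ℂ} (h : ∀ u ∈ S, g *ᵥ u ∈ Submodule.span ℂ S) :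
    Stab (Submodule.span ℂ S) g := fun _ hv =>
  (Submodule.span_le (p := (Submodule.span ℂ S).comap g.mulVecLin)).2 h hv

theorem sat_stab_Alg {e : Matrix ι ι ℂ} (he : e ∈ Alg Γ) : Stab (sat Γ V₁) e :=
  stab_span fun _ ⟨e', he', v, hv, hu⟩ =>
    Submodule.subset_span ⟨e * e', mul_mem he he', v, hv, by rw [hu, mulVec_mulVec]⟩

theorem sat_stab (hV : ∀ g ∈ Γ, Stab V₁ (cx g)) {g : GL ι ℤ} (hg : g ∈ Γ) :
    Stab (sat Γ V₁) (cx g) :=
  stab_span fun _ ⟨e, he, v, hv, hu⟩ => Submodule.subset_span ⟨e, he, _, hV g hg v hv, by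
    rw [hu, mulVec_mulVec, mulVec_mulVec, mem_Alg.1 he g hg]⟩

theorem HT_stab (hV : ∀ g ∈ Γ, Stab V₁ (cx g)) {g : GL ι ℤ} (hg : g ∈ Γ) :
    Stab (HT Γ V₁) (cx g) := (sat_stab hV hg).hull (isInt_cx g).isRat

theorem HT_stab_Alg {e : Matrix ι ι ℂ} (he : e ∈ Alg Γ) : Stab (HT Γ V₁) e := fun v hv =>
  Alg_induction ((HT Γ V₁).comap ((mulVecBilin ℂ ℂ).flip v))
    (fun _ h1 h2 => (sat_stab_Alg h1).hull h2 v hv) he

/-- the elements of `Γ` that act on `V₁` by a scalar -/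
def Nn (Γ : Subgroup (GL ι ℤ)) (V₁ : Submodule ℂ (ι → ℂ)) : Subgroup (GL ι ℤ) where
  carrier := {g | g ∈ Γ ∧ ∃ c : ℂ, ∀ v ∈ V₁, cx g *ᵥ v = c • v}
  one_mem' := ⟨Γ.one_mem, 1, fun v _ => by
    rw [show cx (1 : GL ι ℤ) = 1 from (cxHom ι).map_one, one_mulVec, one_smul]⟩
  mul_mem' := fun {a b} ⟨ha, c, hc⟩ ⟨hb, d, hd⟩ => ⟨Γ.mul_mem ha hb, d * c, fun v hv => by
    rw [show cx (a * b) = cx a * cx b from (cxHom ι).map_mul _ _, ← mulVec_mulVec, hd v hv,
      mulVec_smul, hc v hv, smul_smul]⟩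
  inv_mem' := fun {a} ⟨ha, c, hc⟩ => ⟨Γ.inv_mem ha, c⁻¹, fun v hv => by
    have e : cx a⁻¹ * cx a = 1 := by
      rw [← cxHom_apply, ← cxHom_apply, ← map_mul, inv_mul_cancel, map_one]
    have := congrArg (cx a⁻¹).mulVec (hc v hv)
    rw [mulVec_mulVec, e, one_mulVec, mulVec_smul] at this
    by_cases h0 : c = 0
    · rw [h0, zero_smul] at this
      simp [this]
    · conv_rhs => rw [this, smul_smul, inv_mul_cancel₀ h0, one_smul]⟩

theorem mem_Nn {g : GL ι ℤ} : g ∈ Nn Γ V₁ ↔ g ∈ Γ ∧ ∃ c : ℂ, ∀ v ∈ V₁, cx g *ᵥ v = c • v := Iff.rfl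

theorem Nn_le : Nn Γ V₁ ≤ Γ := fun _ h => h.1

theorem Nn_conj (hV : ∀ g ∈ Γ, Stab V₁ (cx g)) {a g : GL ι ℤ} (ha : a ∈ Nn Γ V₁) (hg : g ∈ Γ) :
    g * a * g⁻¹ ∈ Nn Γ V₁ := by
  obtain ⟨ha, c, hc⟩ := ha
  refine ⟨Γ.mul_mem (Γ.mul_mem hg ha) (Γ.inv_mem hg), c, fun v hv => ?_⟩
  have e : cx g * cx g⁻¹ = 1 := by
    rw [← cxHom_apply, ← cxHom_apply, ← map_mul, mul_inv_cancel, map_one]
  rw [← cxHom_apply, map_mul, map_mul, cxHom_apply, cxHom_apply, cxHom_apply, ← mulVec_mulVec,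
    ← mulVec_mulVec, hc _ (hV _ (Γ.inv_mem hg) v hv), mulVec_smul, mulVec_mulVec, e, one_mulVec]

theorem Nn_normal (hV : ∀ g ∈ Γ, Stab V₁ (cx g)) : ((Nn Γ V₁).subgroupOf Γ).Normal :=
  ⟨fun _ ha g => Nn_conj hV ha g.2⟩

/-- a rational matrix that is a scalar on a stable space is central on its hull -/
theorem hull_comm {a g : Matrix ι ι ℂ} {I : Submodule ℂ (ι → ℂ)} (ra : IsRat a) (rg : IsRat g)
    {c : ℂ} (hc : ∀ v ∈ I, a *ᵥ v = c • v) (hg : Stab I g) {v : ι → ℂ} (hv : v ∈ hull I) :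
    (a * g) *ᵥ v = (g * a) *ᵥ v := by
  have := hull_ker ((ra.mul rg).sub (rg.mul ra)) (fun u hu => by
    rw [sub_mulVec, ← mulVec_mulVec, ← mulVec_mulVec, hc u hu, hc _ (hg u hu), mulVec_smul,
      sub_self]) hv
  rwa [sub_mulVec, sub_eq_zero] at this

theorem sat_scalar {a : GL ι ℤ} (ha : a ∈ Γ) {c : ℂ} (hc : ∀ v ∈ V₁, cx a *ᵥ v = c • v) :
    ∀ u ∈ sat Γ V₁, cx a *ᵥ u = c • u := by
  intro u hu
  induction hu using Submodule.span_induction with
  | mem u hu =>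
    obtain ⟨e, he, v, hv, rfl⟩ := hu
    rw [mulVec_mulVec, mem_Alg.1 he a ha, ← mulVec_mulVec, hc v hv, mulVec_smul]
  | zero => simp
  | add u v _ _ h1 h2 => rw [mulVec_add, h1, h2, smul_add]
  | smul d u _ h => rw [mulVec_smul, h, smul_comm]

/-- elements of `Nn` are central on `HT` -/
theorem Nn_comm (hV : ∀ g ∈ Γ, Stab V₁ (cx g)) {a g : GL ι ℤ} (ha : a ∈ Nn Γ V₁) (hg : g ∈ Γ)
    {v : ι → ℂ} (hv : v ∈ HT Γ V₁) : (cx a * cx g) *ᵥ v = (cx g * cx a) *ᵥ v := by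
  obtain ⟨ha, c, hc⟩ := ha
  exact hull_comm (isInt_cx a).isRat (isInt_cx g).isRat (sat_scalar ha hc) (sat_stab hV hg) hv

end Grp

end

end Pool.Agent.Lib.MP_5c318e_ag.M
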