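import Mathlib

/-! Integral matrices with eigenvalues in the closed unit disc are quasi-unipotent. -/

set_option autoImplicit false

namespace Pool.Agent.Lib.MP_5c318e_ag.M

open Matrix Polynomial

variable {m n k : Type*}

/-- all entries are integers -/
def IsInt (A : Matrix m n ℂ) : Prop := ∀ i j, ∃ z : ℤ, A i j = z

theorem isInt_iff {A : Matrix m n ℂ} :
    IsInt A ↔ ∃ B : Matrix m n ℤ, A = B.map (Int.castRingHom ℂ) := by
  refine ⟨fun h => ?_, ?_⟩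
  · choose B hB using h
    exact ⟨Matrix.of B, by ext i j; simp [hB]⟩
  · rintro ⟨B, rfl⟩ i j
    exact ⟨B i j, rfl⟩

theorem isInt_map (B : Matrix m n ℤ) : IsInt (B.map (Int.castRingHom ℂ)) := isInt_iff.2 ⟨B, rfl⟩

theorem IsInt.mul [Fintype n] {A : Matrix m n ℂ} {B : Matrix n k ℂ} (hA : IsInt A) (hB : IsInt B) :
    IsInt (A * B) := by
  obtain ⟨A, rfl⟩ := isInt_iff.1 hA
  obtain ⟨B, rfl⟩ := isInt_iff.1 hB
  exact isInt_iff.2 ⟨A * B, Matrix.map_mul.symm⟩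

theorem IsInt.add {A B : Matrix m n ℂ} (hA : IsInt A) (hB : IsInt B) : IsInt (A + B) := fun i j => by
  obtain ⟨a, ha⟩ := hA i j
  obtain ⟨b, hb⟩ := hB i j
  exact ⟨a + b, by simp [ha, hb]⟩

theorem IsInt.neg {A : Matrix m n ℂ} (hA : IsInt A) : IsInt (-A) := fun i j => by
  obtain ⟨a, ha⟩ := hA i j
  exact ⟨-a, by simp [ha]⟩

theorem IsInt.sub {A B : Matrix m n ℂ} (hA : IsInt A) (hB : IsInt B) : IsInt (A - B) := by
  rw [sub_eq_add_neg]
  exact hA.add hB.neg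

theorem IsInt.transpose {A : Matrix m n ℂ} (hA : IsInt A) : IsInt Aᵀ := fun i j => hA j i

theorem IsInt.conjTranspose {A : Matrix m n ℂ} (hA : IsInt A) : Aᴴ = Aᵀ := by
  ext i j
  obtain ⟨a, ha⟩ := hA j i
  simp [ha]

theorem isInt_zero : IsInt (0 : Matrix m n ℂ) := fun _ _ => ⟨0, by simp⟩

theorem isInt_one [DecidableEq n] : IsInt (1 : Matrix n n ℂ) := fun i j => by
  by_cases h : i = j
  · exact ⟨1, by subst h; simp⟩
  · exact ⟨0, by simp [h]⟩

variable [Fintype n] [DecidableEq n]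

theorem IsInt.pow {A : Matrix n n ℂ} (hA : IsInt A) (e : ℕ) : IsInt (A ^ e) := by
  induction e with
  | zero => simpa using isInt_one
  | succ e ih => rw [pow_succ]; exact ih.mul hA

theorem IsInt.det {A : Matrix n n ℂ} (hA : IsInt A) : ∃ z : ℤ, A.det = z := by
  obtain ⟨A, rfl⟩ := isInt_iff.1 hA
  exact ⟨A.det, ((Int.castRingHom ℂ).map_det A).symm⟩

/-- roots of the characteristic polynomial have eigenvectors -/
theorem exists_eigvec {T : Matrix n n ℂ} {z : ℂ} (h : T.charpoly.IsRoot z) :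
    ∃ v, v ≠ 0 ∧ T *ᵥ v = z • v := by
  rw [IsRoot.def, eval_charpoly] at h
  obtain ⟨v, hv, e⟩ := exists_mulVec_eq_zero_iff.2 h
  refine ⟨v, hv, ?_⟩
  rw [sub_mulVec, sub_eq_zero] at e
  rw [← e]
  ext i
  simp [scalar_apply, mulVec_diagonal]

/-- a polynomial that vanishes at all eigenvalues gives a nilpotent matrix -/
theorem aeval_pow_card_eq_zero (T : Matrix n n ℂ) (f : ℂ[X])
    (h : ∀ (z : ℂ) (v : n → ℂ), v ≠ 0 → T *ᵥ v = z • v → f.eval z = 0) : aeval T f ^ Fintype.card n = 0 := by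
  have hm := T.charpoly_monic
  have hs : T.charpoly.Splits := IsAlgClosed.splits _
  have hc : Multiset.card T.charpoly.roots = Fintype.card n := by
    rw [← hs.natDegree_eq_card_roots, charpoly_natDegree_eq_dim]
  have hd : T.charpoly ∣ f ^ Fintype.card n := by
    rw [hs.eq_prod_roots_of_monic hm, ← hc]
    have : f ^ Multiset.card T.charpoly.roots = (T.charpoly.roots.map fun _ => f).prod := by simp
    rw [this]
    refine Multiset.prod_dvd_prod_of_dvd _ _ fun z hz => ?_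
    obtain ⟨v, hv, e⟩ := exists_eigvec ((mem_roots hm.ne_zero).1 hz)
    exact dvd_iff_isRoot.2 (h z v hv e)
  obtain ⟨g, hg⟩ := hd
  rw [← map_pow, hg, map_mul, aeval_self_charpoly, zero_mul]

theorem nilpotent_of_eig {T : Matrix n n ℂ} (h : ∀ (z : ℂ) (v : n → ℂ), v ≠ 0 → T *ᵥ v = z • v → z = 0) :
    T ^ Fintype.card n = 0 := by
  simpa using aeval_pow_card_eq_zero T X (by simpa using h)

theorem pow_mulVec_eig {T : Matrix n n ℂ} {z : ℂ} {v : n → ℂ} (h : T *ᵥ v = z • v) (e : ℕ) :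
    (T ^ e) *ᵥ v = z ^ e • v := by
  induction e with
  | zero => simp
  | succ e ih => rw [pow_succ', ← mulVec_mulVec, ih, mulVec_smul, h, smul_smul, pow_succ]

theorem pow_card_eq_zero {T : Matrix n n ℂ} (h : IsNilpotent T) : T ^ Fintype.card n = 0 := by
  obtain ⟨e, he⟩ := h
  refine nilpotent_of_eig fun z v hv hz => ?_
  have := pow_mulVec_eig hz e
  rw [he, zero_mulVec] at this
  exact eq_zero_of_pow_eq_zero ((smul_eq_zero.1 this.symm).resolve_right hv)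

/-- one exponent kills all roots of unity that are roots of integer polynomials of bounded degree
and Mahler measure one -/
theorem exists_exponent (r : ℕ) : ∃ M, 0 < M ∧ ∀ p : ℤ[X], p.natDegree ≤ r →
    (p.map (Int.castRingHom ℂ)).mahlerMeasure = 1 → ∀ z : ℂ, z ≠ 0 → z ∈ p.aroots ℂ → z ^ M = 1 := by
  have hf := finite_mahlerMeasure_le r 1
  set S := {p : ℤ[X] | p.natDegree ≤ r ∧
    (p.map (Int.castRingHom ℂ)).mahlerMeasure ≤ ((1 : NNReal) : ℝ)} with hS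
  have hZ : (⋃ p ∈ S, ((p.aroots ℂ).toFinset : Set ℂ)).Finite :=
    hf.biUnion fun p _ => Finset.finite_toSet _
  refine ⟨∏ z ∈ hZ.toFinset, max 1 (orderOf z), Finset.prod_pos fun z _ => by omega, ?_⟩
  intro p h1 h2 z hz0 hz
  obtain ⟨e, he, hze⟩ := pow_eq_one_of_mahlerMeasure_eq_one h2 hz0 hz
  have ho : 0 < orderOf z := orderOf_pos_iff.2 (isOfFinOrder_iff_pow_eq_one.2 ⟨e, he, hze⟩)
  have hm : z ∈ hZ.toFinset := by
    rw [Set.Finite.mem_toFinset]
    exact Set.mem_biUnion (show p ∈ S from ⟨h1, by simp [h2]⟩) (by simpa using hz)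
  rw [← orderOf_dvd_iff_pow_eq_one]
  have := Finset.dvd_prod_of_mem (fun z : ℂ => max 1 (orderOf z)) hm
  rwa [max_eq_right ho] at this

/-- Kronecker, with an exponent that depends on the size only -/
theorem kron_unif (n : Type*) [Fintype n] [DecidableEq n] : ∃ M, 0 < M ∧ ∀ T : Matrix n n ℂ,
    IsInt T → T.det ≠ 0 → (∀ (z : ℂ) (v : n → ℂ), v ≠ 0 → T *ᵥ v = z • v → ‖z‖ ≤ 1) →
    (T ^ M - 1) ^ Fintype.card n = 0 ∧ ∀ (z : ℂ) (v : n → ℂ), v ≠ 0 → T *ᵥ v = z • v → z ^ M = 1 := by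
  obtain ⟨M, hM, H⟩ := exists_exponent (Fintype.card n)
  refine ⟨M, hM, fun T hT hd h => ?_⟩
  obtain ⟨B, rfl⟩ := isInt_iff.1 hT
  set T := B.map (Int.castRingHom ℂ) with hT
  have e : B.charpoly.map (Int.castRingHom ℂ) = T.charpoly := (charpoly_map B _).symm
  have hm := T.charpoly_monic
  have h1 : (B.charpoly.map (Int.castRingHom ℂ)).mahlerMeasure = 1 := by
    rw [e, mahlerMeasure_eq_leadingCoeff_mul_prod_roots, hm.leadingCoeff, norm_one, one_mul]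
    refine Multiset.prod_eq_one fun a ha => ?_
    obtain ⟨z, hz, rfl⟩ := Multiset.mem_map.1 ha
    obtain ⟨v, hv, ev⟩ := exists_eigvec ((mem_roots hm.ne_zero).1 hz)
    exact max_eq_left (h z v hv ev)
  have h2 : ∀ (z : ℂ) (v : n → ℂ), v ≠ 0 → T *ᵥ v = z • v → z ^ M = 1 := by
    intro z v hv ev
    refine H B.charpoly (charpoly_natDegree_eq_dim B).le h1 z ?_ ?_
    · rintro rfl
      exact hd (exists_mulVec_eq_zero_iff.1 ⟨v, hv, by simpa using ev⟩)
    · show z ∈ (B.charpoly.map (algebraMap ℤ ℂ)).roots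
      rw [show algebraMap ℤ ℂ = Int.castRingHom ℂ from rfl, e, mem_roots hm.ne_zero, IsRoot.def,
        eval_charpoly]
      refine exists_mulVec_eq_zero_iff.1 ⟨v, hv, ?_⟩
      rw [sub_mulVec, ev, sub_eq_zero]
      ext i
      simp [scalar_apply, mulVec_diagonal]
  refine ⟨?_, h2⟩
  have := aeval_pow_card_eq_zero T (X ^ M - 1) fun z v hv ev => by simp [h2 z v hv ev]
  rwa [map_sub, map_pow, aeval_X, map_one] at this

/-- Kronecker -/
theorem kron {T : Matrix n n ℂ} (hT : IsInt T) (hd : T.det ≠ 0)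
    (h : ∀ (z : ℂ) (v : n → ℂ), v ≠ 0 → T *ᵥ v = z • v → ‖z‖ ≤ 1) :
    ∃ M, 0 < M ∧ (T ^ M - 1) ^ Fintype.card n = 0 := by
  obtain ⟨M, hM, H⟩ := kron_unif n
  exact ⟨M, hM, (H T hT hd h).1⟩

/-- subexponential growth along the orbits bounds the eigenvalues -/
theorem eig_le_one_of_growth {T : Matrix n n ℂ}
    (h : ∀ v, ∀ ρ > (1 : ℝ), ∃ C : ℝ, ∀ e : ℕ, ‖(T ^ e) *ᵥ v‖ ≤ C * ρ ^ e) :
    ∀ (z : ℂ) (v : n → ℂ), v ≠ 0 → T *ᵥ v = z • v → ‖z‖ ≤ 1 := by
  intro z v hv ev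
  by_contra hz
  rw [not_le] at hz
  obtain ⟨ρ, h1, h2⟩ := exists_between hz
  obtain ⟨C, hC⟩ := h v ρ h1
  have hρ : 0 < ρ := by linarith
  have hv' : 0 < ‖v‖ := norm_pos_iff.2 hv
  obtain ⟨e, he⟩ := pow_unbounded_of_one_lt (C / ‖v‖) ((one_lt_div hρ).2 h2)
  have := hC e
  rw [pow_mulVec_eig ev, norm_smul, norm_pow] at this
  rw [div_pow, div_lt_div_iff₀ hv' (pow_pos hρ e)] at he
  linarith

/-- polynomial growth along the orbits bounds the eigenvalues -/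
theorem eig_le_one_of_poly {T : Matrix n n ℂ}
    (h : ∀ v, ∃ (C : ℝ) (d : ℕ), ∀ e : ℕ, ‖(T ^ e) *ᵥ v‖ ≤ C * (e + 1) ^ d) :
    ∀ (z : ℂ) (v : n → ℂ), v ≠ 0 → T *ᵥ v = z • v → ‖z‖ ≤ 1 := by
  refine eig_le_one_of_growth fun v ρ hρ => ?_
  obtain ⟨C, d, hC⟩ := h v
  have t := (tendsto_pow_const_div_const_pow_of_one_lt d hρ).bddAbove_range
  obtain ⟨B, hB⟩ := t
  have hρ0 : 0 < ρ := by linarith
  refine ⟨|C| * B * ρ, fun e => (hC e).trans ?_⟩
  have h1 : (((e + 1 : ℕ) : ℝ)) ^ d / ρ ^ (e + 1) ≤ B := hB ⟨e + 1, rfl⟩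
  rw [div_le_iff₀ (pow_pos hρ0 _)] at h1
  push_cast at h1
  calc C * ((e : ℝ) + 1) ^ d ≤ |C| * ((e : ℝ) + 1) ^ d := by gcongr; exact le_abs_self C
    _ ≤ |C| * (B * ρ ^ (e + 1)) := by gcongr
    _ = _ := by ring

end Pool.Agent.Lib.MP_5c318e_ag.M
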